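import Pool.Agent.W613.LR.ST2
import Pool.Agent.W805.LR.Stm6

/-!
# PD2-KP: adding rings of small total rate
-/

set_option autoImplicit false
set_option linter.unusedSectionVars false

namespace Pool.Agent.W928.PD.KP

open Finset Equiv Pool.Agent.W815.LR Pool.Agent.W613.LR
open Pool.Agent.W805.LR hiding ev_add ev_nonneg ev_mono ev_const cnt_nonneg cnt_mono one_le_len cnt_eq
open Pool.Agent.W805.PD (S_keep)

section perm

variable {V : Type} [Fintype V] [DecidableEq V]

/-- points outside the two cycles keep their length -/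
theorem len_keep (hm : S_merge) (hs : S_split) (p : Perm V) {u w v : V}
    (hu : ¬ p.SameCycle u v) (hw : ¬ p.SameCycle w v) : len (swap u w * p) v = len p v := by
  by_cases huw : u = w
  · subst huw
    rw [swap_self]
    congr 1
  by_cases h : p.SameCycle u w
  · have h2 := (hs V p u w huw h).2.1 v hu
    unfold len
    congr 1
    funext z
    exact propext (h2 z)
  · exact (hm V p u w h).2.1 v hu hw

theorem cnt_short (p : Perm V) (s : ℝ) (hs : 0 ≤ s) (u : V) :
    (cnt fun v => p.SameCycle u v ∧ len p v < s) ≤ s := by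
  by_cases h : len p u < s
  · refine le_trans ?_ h.le
    unfold len
    exact cnt_mono fun v hv => hv.1
  · refine le_trans (le_of_eq ?_) hs
    rw [cnt_ind]
    refine sum_eq_zero fun v _ => ind_of_not ?_
    rintro ⟨h1, h2⟩
    rw [← len_same h1] at h2
    exact h h2

theorem cnt_up (hm : S_merge) (hs : S_split) (p : Perm V) (s : ℝ) (hs0 : 0 ≤ s) (u w : V) :
    (cnt fun v => len p v < s ∧ s ≤ len (swap u w * p) v) ≤ 2 * s := by
  have h1 : (cnt fun v => len p v < s ∧ s ≤ len (swap u w * p) v) ≤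
      (cnt fun v => p.SameCycle u v ∧ len p v < s) +
        (cnt fun v => p.SameCycle w v ∧ len p v < s) := by
    refine cnt_le_add fun v hv => ?_
    by_cases hu : p.SameCycle u v
    · exact Or.inl ⟨hu, hv.1⟩
    by_cases hw : p.SameCycle w v
    · exact Or.inr ⟨hw, hv.1⟩
    exfalso
    have := len_keep hm hs p hu hw
    linarith [hv.1, hv.2]
  have h2 := cnt_short p s hs0 u
  have h3 := cnt_short p s hs0 w
  linarith

theorem pow_agree {p q : Perm V} {v : V} (h : ∀ z, p.SameCycle v z → q z = p z) (n : ℕ) :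
    (q ^ n) v = (p ^ n) v := by
  induction n with
  | zero => simp
  | succ n ih =>
    rw [pow_succ', pow_succ', Perm.mul_apply, Perm.mul_apply, ih]
    exact h _ ⟨n, by simp⟩

theorem sameCycle_agree {p q : Perm V} {v : V} (h : ∀ z, p.SameCycle v z → q z = p z) (z : V) :
    q.SameCycle v z ↔ p.SameCycle v z := by
  constructor
  · intro hz
    obtain ⟨n, -, -, hn⟩ := hz.exists_pow_eq'' 
    exact ⟨n, by rw [zpow_natCast, ← pow_agree h n]; exact hn⟩
  · intro hz
    obtain ⟨n, -, -, hn⟩ := hz.exists_pow_eq''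
    exact ⟨n, by rw [zpow_natCast, pow_agree h n]; exact hn⟩

theorem len_agree {p q : Perm V} {v : V} (h : ∀ z, p.SameCycle v z → q z = p z) :
    len q v = len p v := by
  unfold len
  congr 1
  funext z
  exact propext (sameCycle_agree h z)

end perm

/-- telescoping -/
theorem tele {V : Type} [Fintype V] [DecidableEq V] (p : ℕ → Perm V) (s : ℝ) (M : ℕ) (v : V) :
    ind (len (p 0) v < s ∧ s ≤ len (p M) v) ≤
      ∑ i : Fin M, ind (len (p i.val) v < s ∧ s ≤ len (p (i.val + 1)) v) := by
  by_cases hd : ∃ i : Fin M, len (p i.val) v < s ∧ s ≤ len (p (i.val + 1)) v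
  · obtain ⟨i, hi⟩ := hd
    calc ind (len (p 0) v < s ∧ s ≤ len (p M) v) ≤ 1 := ind_le_one _
      _ = ind (len (p i.val) v < s ∧ s ≤ len (p (i.val + 1)) v) := (ind_of hi).symm
      _ ≤ _ := single_le_sum
        (f := fun i : Fin M => ind (len (p i.val) v < s ∧ s ≤ len (p (i.val + 1)) v))
        (fun _ _ => ind_nonneg _) (mem_univ i)
  · push Not at hd
    have h0 : 0 ≤ ∑ i : Fin M, ind (len (p i.val) v < s ∧ s ≤ len (p (i.val + 1)) v) :=
      sum_nonneg fun _ _ => ind_nonneg _
    refine le_trans (le_of_eq (ind_of_not ?_)) h0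
    rintro ⟨h1, h2⟩
    have h3 : ∀ j, j ≤ M → len (p j) v < s := by
      intro j
      induction j with
      | zero => intro _; exact h1
      | succ j ih =>
        intro hj
        exact hd ⟨j, by omega⟩ (ih (by omega))
    have := h3 M le_rfl
    linarith

section

variable {V K ι : Type} [Fintype V] [DecidableEq V] [Fintype K] [DecidableEq K]
  {W : (K → Option (V × V)) → ℝ} {w : V → V → ℝ} {M : ℕ} {a : Fin M → K}
  {g : ℕ → (K → Option (V × V)) → Perm V} {c : Fin M → (K → Option (V × V)) → Perm V}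

/-- sums over a slot, `Θ = 1` -/
theorem slot_le (h : IsStage 1 W w (fun _ : V => ()) M a g c) (i : Fin M)
    (F : V → V → (K → Option (V × V)) → ℝ) (hF0 : ∀ x y ω, 0 ≤ F x y ω)
    (hF : ∀ x y ω o, F x y (Function.update ω (a i) o) = F x y ω)
    (G : (K → Option (V × V)) → ℝ) (hG0 : ∀ ω, 0 ≤ G ω)
    (hFG : ∀ ω, ∑ x, ∑ y, w x y * F x y ω ≤ G ω) :
    ev W (slotF (a i) F) ≤ ev W G := by
  have h1 := slot_up (h.up i) F hF0 hF
  rw [one_mul] at h1
  refine le_trans h1 ?_
  have h2 : ∑ x, ∑ y, w x y * evn (a i) W (F x y) =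
      evn (a i) W (fun ω => ∑ x, ∑ y, w x y * F x y ω) := by
    rw [evn_sum]
    refine sum_congr rfl fun x _ => ?_
    rw [evn_sum]
    exact sum_congr rfl fun y _ => (evn_const_mul _ _).symm
  rw [h2]
  exact (evn_mono h.W_nonneg fun ω _ => hFG ω).trans (evn_le_ev h.W_nonneg G hG0)

theorem part_a (hm : S_merge) (hsp : S_split) (h : IsStage 1 W w (fun _ : V => ()) M a g c)
    (s : ℝ) (hs : 0 ≤ s) :
    ev W (fun ω => cnt fun v => len (g 0 ω) v < s ∧ s ≤ len (g M ω) v) ≤
      M * (2 * s) * (∑ x, ∑ y, w x y) * ev W (fun _ => 1) := by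
  have hw0 : 0 ≤ ∑ x, ∑ y, w x y := sum_nonneg fun x _ => sum_nonneg fun y _ => h.w_nonneg x y
  have h1 : ev W (fun ω => cnt fun v => len (g 0 ω) v < s ∧ s ≤ len (g M ω) v) ≤
      ev W (fun ω => ∑ i : Fin M, slotF (a i) (fun _ _ _ => 2 * s) ω) := by
    refine ev_mono h.W_nonneg fun ω _ => ?_
    calc (cnt fun v => len (g 0 ω) v < s ∧ s ≤ len (g M ω) v)
        = ∑ v, ind (len (g 0 ω) v < s ∧ s ≤ len (g M ω) v) := rfl
      _ ≤ ∑ v, ∑ i : Fin M, ind (len (g i.val ω) v < s ∧ s ≤ len (g (i.val + 1) ω) v) :=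
          sum_le_sum fun v _ => tele (fun j => g j ω) s M v
      _ = ∑ i : Fin M, ∑ v, ind (len (g i.val ω) v < s ∧ s ≤ len (g (i.val + 1) ω) v) := sum_comm
      _ ≤ _ := by
          refine sum_le_sum fun i _ => ?_
          rcases ho : ω (a i) with _ | ⟨x, y⟩
          · rw [slotF_none ho, step_none h i ho]
            refine (sum_eq_zero fun v _ => ind_of_not ?_).le
            rintro ⟨h1, h2⟩
            linarith
          · rw [slotF_some ho, step_some h i ho]
            exact cnt_up hm hsp (g i.val ω) s hs (c i ω x) (c i ω y)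
  refine h1.trans ?_
  rw [ev_sum]
  have h2 : ∀ i : Fin M, ev W (slotF (a i) (fun _ _ _ => 2 * s)) ≤
      2 * s * (∑ x, ∑ y, w x y) * ev W (fun _ => 1) := by
    intro i
    have e1 := slot_le h i (fun _ _ _ => 2 * s) (fun _ _ _ => by linarith) (fun _ _ _ _ => rfl)
      (fun _ => 2 * s * (∑ x, ∑ y, w x y) * 1) (fun _ => by positivity) (fun ω => by
        rw [mul_one, mul_sum]
        refine le_of_eq (sum_congr rfl fun x _ => ?_)
        rw [mul_sum]
        exact sum_congr rfl fun y _ => mul_comm _ _)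
    refine e1.trans (le_of_eq ?_)
    exact ev_const_mul (W := W) (2 * s * (∑ x, ∑ y, w x y)) (fun _ => 1)
  calc ∑ i : Fin M, ev W (slotF (a i) (fun _ _ _ => 2 * s)) ≤
      ∑ _i : Fin M, 2 * s * (∑ x, ∑ y, w x y) * ev W (fun _ => 1) := sum_le_sum fun i _ => h2 i
    _ = _ := by
      rw [sum_const, card_univ, Fintype.card_fin, nsmul_eq_mul]
      ring

/-- counted points at step `i` -/
def CP (g : ℕ → (K → Option (V × V)) → Perm V) (s1 s : ℝ) (i : ℕ) (ω : K → Option (V × V))
    (v : V) : Prop :=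
  s1 ≤ len (g 0 ω) v ∧ len (g 0 ω) v < s ∧ ∀ z, (g 0 ω).SameCycle v z → g i ω z = g 0 ω z

theorem part_b (h : IsStage 1 W w (fun _ : V => ()) M a g c) (hsym : ∀ x y, w x y = w y x)
    (s1 s : ℝ) (hs : 0 ≤ s) (ρ : ℝ) (hρ : ∀ x, ∑ y, w x y ≤ ρ) (hsρ : 2 * s * ρ ≤ 1) :
    (1 - 2 * s * ρ) ^ M *
        ev W (fun ω => cnt fun v => s1 ≤ len (g 0 ω) v ∧ len (g 0 ω) v < s) ≤
      ev W (fun ω => cnt fun v => s1 ≤ len (g M ω) v ∧ len (g M ω) v < s) := by
  have hq : 0 ≤ 1 - 2 * s * ρ := by linarith
  -- one step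
  have hstep : ∀ i : Fin M, (1 - 2 * s * ρ) * ev W (fun ω => cnt (CP g s1 s i.val ω)) ≤
      ev W (fun ω => cnt (CP g s1 s (i.val + 1) ω)) := by
    intro i
    set F : V → V → (K → Option (V × V)) → ℝ := fun x y ω =>
      ∑ v, ind (CP g s1 s i.val ω v) * (ind ((g 0 ω).SameCycle v (c i ω x)) +
        ind ((g 0 ω).SameCycle v (c i ω y))) with hF
    have hF0 : ∀ x y ω, 0 ≤ F x y ω := fun x y ω => sum_nonneg fun v _ =>
      mul_nonneg (ind_nonneg _) (add_nonneg (ind_nonneg _) (ind_nonneg _))
    have hFi : ∀ x y ω o, F x y (Function.update ω (a i) o) = F x y ω := by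
      intro x y ω o
      simp only [hF, CP, h.g_indep i i.val le_rfl, h.g_indep i 0 (Nat.zero_le _), h.c_indep i]
    -- pointwise
    have hp : ∀ ω, W ω ≠ 0 → cnt (CP g s1 s i.val ω) - slotF (a i) F ω ≤
        cnt (CP g s1 s (i.val + 1) ω) := by
      intro ω _
      rcases ho : ω (a i) with _ | ⟨x, y⟩
      · rw [slotF_none ho, sub_zero]
        refine cnt_mono fun v hv => ?_
        refine ⟨hv.1, hv.2.1, fun z hz => ?_⟩
        rw [step_none h i ho]
        exact hv.2.2 z hz
      · rw [slotF_some ho, sub_le_iff_le_add, cnt_ind, cnt_ind, ← sum_add_distrib]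
        refine sum_le_sum fun v _ => ?_
        by_cases hv : CP g s1 s i.val ω v
        · rw [ind_of hv, one_mul]
          by_cases hx : (g 0 ω).SameCycle v (c i ω x)
          · rw [ind_of hx]
            have e1 := ind_nonneg (CP g s1 s (i.val + 1) ω v)
            have e2 := ind_nonneg ((g 0 ω).SameCycle v (c i ω y))
            linarith
          by_cases hy : (g 0 ω).SameCycle v (c i ω y)
          · rw [ind_of hy]
            have e1 := ind_nonneg (CP g s1 s (i.val + 1) ω v)
            have e2 := ind_nonneg ((g 0 ω).SameCycle v (c i ω x))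
            linarith
          have hv' : CP g s1 s (i.val + 1) ω v := by
            refine ⟨hv.1, hv.2.1, fun z hz => ?_⟩
            rw [step_some h i ho, Perm.mul_apply, hv.2.2 z hz]
            have hz' : (g 0 ω).SameCycle v (g 0 ω z) := hz.trans ⟨1, by simp⟩
            refine swap_apply_of_ne_of_ne ?_ ?_
            · intro e
              rw [e] at hz'
              exact hx hz'
            · intro e
              rw [e] at hz'
              exact hy hz'
          rw [ind_of hv']
          have e1 := ind_nonneg ((g 0 ω).SameCycle v (c i ω x))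
          have e2 := ind_nonneg ((g 0 ω).SameCycle v (c i ω y))
          linarith
        · rw [ind_of_not hv, zero_mul, add_zero]
          exact ind_nonneg _
    -- the loss
    have hloss : ∀ ω, ∑ x, ∑ y, w x y * F x y ω ≤ 2 * s * ρ * cnt (CP g s1 s i.val ω) := by
      intro ω
      have e1 : ∀ v, ∑ x, (∑ y, w x y) * ind ((g 0 ω).SameCycle v (c i ω x)) ≤
          ρ * len (g 0 ω) v := by
        intro v
        calc ∑ x, (∑ y, w x y) * ind ((g 0 ω).SameCycle v (c i ω x)) ≤
            ∑ x, ρ * ind ((g 0 ω).SameCycle v (c i ω x)) :=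
              sum_le_sum fun x _ => mul_le_mul_of_nonneg_right (hρ x) (ind_nonneg _)
          _ = ρ * ∑ x, ind ((g 0 ω).SameCycle v (c i ω x)) := by rw [mul_sum]
          _ = ρ * len (g 0 ω) v := by
              congr 1
              exact Equiv.sum_comp (c i ω) (fun z => ind ((g 0 ω).SameCycle v z))
      have e2 : ∑ x, ∑ y, w x y * F x y ω =
          ∑ v, ind (CP g s1 s i.val ω v) *
            (2 * ∑ x, (∑ y, w x y) * ind ((g 0 ω).SameCycle v (c i ω x))) := by
        have e3 : ∀ v, ∑ x, ∑ y, w x y * ind ((g 0 ω).SameCycle v (c i ω y)) =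
            ∑ x, ∑ y, w x y * ind ((g 0 ω).SameCycle v (c i ω x)) := by
          intro v
          rw [sum_comm]
          refine sum_congr rfl fun y _ => sum_congr rfl fun x _ => ?_
          rw [hsym]
        calc ∑ x, ∑ y, w x y * F x y ω
            = ∑ x, ∑ y, ∑ v, ind (CP g s1 s i.val ω v) *
                (w x y * ind ((g 0 ω).SameCycle v (c i ω x)) +
                  w x y * ind ((g 0 ω).SameCycle v (c i ω y))) := by
              refine sum_congr rfl fun x _ => sum_congr rfl fun y _ => ?_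
              simp only [hF]
              rw [mul_sum]
              exact sum_congr rfl fun v _ => by ring
          _ = ∑ v, ∑ x, ∑ y, ind (CP g s1 s i.val ω v) *
                (w x y * ind ((g 0 ω).SameCycle v (c i ω x)) +
                  w x y * ind ((g 0 ω).SameCycle v (c i ω y))) := sum3 _
          _ = _ := by
              refine sum_congr rfl fun v _ => ?_
              simp only [← mul_sum, sum_add_distrib]
              rw [e3 v]
              congr 1
              rw [two_mul]
              simp only [sum_mul]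
      rw [e2, cnt_ind, mul_sum]
      refine sum_le_sum fun v _ => ?_
      by_cases hv : CP g s1 s i.val ω v
      · rw [ind_of hv, one_mul, mul_one]
        have e4 := e1 v
        have hρ0 : 0 ≤ ρ := le_trans (sum_nonneg fun y _ => h.w_nonneg v y) (hρ v)
        have e5 : ρ * len (g 0 ω) v ≤ ρ * s := mul_le_mul_of_nonneg_left hv.2.1.le hρ0
        linarith
      · rw [ind_of_not hv, zero_mul, mul_zero]
    have hG0 : ∀ ω, 0 ≤ 2 * s * ρ * cnt (CP g s1 s i.val ω) := by
      intro ω
      refine le_trans ?_ (hloss ω)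
      exact sum_nonneg fun x _ => sum_nonneg fun y _ => mul_nonneg (h.w_nonneg x y) (hF0 x y ω)
    have h2 := slot_le h i F hF0 hFi (fun ω => 2 * s * ρ * cnt (CP g s1 s i.val ω)) hG0 hloss
    rw [ev_const_mul] at h2
    have h3 : ev W (fun ω => cnt (CP g s1 s i.val ω) - slotF (a i) F ω) ≤
        ev W (fun ω => cnt (CP g s1 s (i.val + 1) ω)) := ev_mono h.W_nonneg hp
    rw [ev_sub] at h3
    have h4 : ev W (fun ω => slotF (a i) F ω) = ev W (slotF (a i) F) := rfl
    rw [h4] at h3
    linarith
  -- induction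
  have hind : ∀ i : ℕ, i ≤ M → (1 - 2 * s * ρ) ^ i * ev W (fun ω => cnt (CP g s1 s 0 ω)) ≤
      ev W (fun ω => cnt (CP g s1 s i ω)) := by
    intro i
    induction i with
    | zero => intro _; rw [pow_zero, one_mul]
    | succ i ih =>
      intro hi
      have e1 := ih (by omega)
      have e2 := hstep ⟨i, hi⟩
      have e3 := mul_le_mul_of_nonneg_left e1 hq
      rw [pow_succ', mul_assoc]
      exact e3.trans e2
  have h0 : ev W (fun ω => cnt fun v => s1 ≤ len (g 0 ω) v ∧ len (g 0 ω) v < s) =
      ev W (fun ω => cnt (CP g s1 s 0 ω)) := by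
    congr 1
    funext ω
    exact cnt_congr fun v => ⟨fun hv => ⟨hv.1, hv.2, fun _ _ => rfl⟩, fun hv => ⟨hv.1, hv.2.1⟩⟩
  rw [h0]
  refine (hind M le_rfl).trans ?_
  refine ev_mono h.W_nonneg fun ω _ => cnt_mono fun v hv => ?_
  have e := len_agree hv.2.2
  rw [e]
  exact ⟨hv.1, hv.2.1⟩

end

theorem main' (hm : S_merge) (hsp : S_split) : S_keep := by
  intro V K _ _ _ _ W w M a g c h hsym s1 s hs
  exact ⟨part_a hm hsp h s hs, fun ρ hρ hsρ => part_b h hsym s1 s hs ρ hρ hsρ⟩

theorem main : Pool.Agent.W805.PD.S_keep :=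
  main' Pool.Agent.W333.LR.main_merge Pool.Agent.W333.LR.main_split

end Pool.Agent.W928.PD.KP
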