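import Pool.Agent.W782.PD.Samp
import Pool.Agent.W805.LR.Stm6

/-!
# PD2-PO: mass of the longest cycles
-/

set_option autoImplicit false
set_option linter.unusedSectionVars false

namespace Pool.Agent.W928.PD.PO

open Finset Equiv Filter Topology
open Pool.Agent.W805.LR Pool.Agent.W805.PD

section perm

variable {V : Type} [Fintype V] [DecidableEq V]

/-- sums over points by cycles -/
theorem sum_len (g : Perm V) (F : ℝ → ℝ) :
    ∑ v, F (len g v) = (g.partition.parts.map fun c : ℕ => (c : ℝ) * F c).sum := by
  classical
  rw [Perm.parts_partition, Multiset.map_add, Multiset.sum_add, Perm.cycleType_def,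
    Multiset.map_map, Multiset.map_replicate, Multiset.sum_replicate]
  have h0 : ∑ v, F (len g v) = ∑ v ∈ g.support, F (len g v) + ∑ v ∈ g.supportᶜ, F (len g v) :=
    (Finset.sum_add_sum_compl g.support _).symm
  rw [h0]
  congr 1
  · have h1 : ∀ v ∈ g.support, g.cycleOf v ∈ g.cycleFactorsFinset := by
      intro v hv
      exact Perm.cycleOf_mem_cycleFactorsFinset_iff.2 hv
    rw [← Finset.sum_fiberwise_of_maps_to h1]
    show _ = ∑ c ∈ g.cycleFactorsFinset, _
    refine Finset.sum_congr rfl fun c hc => ?_
    have h2 : (g.support.filter fun v => g.cycleOf v = c) = c.support := by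
      ext v
      rw [mem_filter]
      constructor
      · rintro ⟨hv, rfl⟩
        rw [Perm.mem_support_cycleOf_iff' (Perm.mem_support.1 hv)]
      · intro hv
        exact ⟨Perm.mem_cycleFactorsFinset_support_le hc hv, (Perm.cycle_is_cycleOf hv hc).symm⟩
    rw [h2]
    have h3 : ∀ v ∈ c.support, F (len g v) = F (c.support.card : ℝ) := by
      intro v hv
      have h4 : g v ≠ v := Perm.mem_support.1 (Perm.mem_cycleFactorsFinset_support_le hc hv)
      rw [Pool.Agent.W782.PD.Samp.len_class g v h4, ← Perm.cycle_is_cycleOf hv hc]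
    rw [Finset.sum_congr rfl h3, Finset.sum_const, nsmul_eq_mul]
    rfl
  · have h3 : ∀ v ∈ g.supportᶜ, F (len g v) = F 1 := by
      intro v hv
      rw [Finset.mem_compl, Perm.mem_support, not_not] at hv
      rw [Pool.Agent.W782.PD.Samp.len_fix g v hv]
    rw [Finset.sum_congr rfl h3, Finset.sum_const, Finset.card_compl, Nat.cast_one, one_mul]

end perm

/-! ## Decreasing lists -/

/-- entries of a decreasing list -/
theorem count_iff {l : List ℕ} (hl : l.Pairwise (· ≥ ·)) (n : ℝ) (hn : 0 < n) (i : ℕ) (x : ℝ) :
    i + 1 ≤ (l.filter fun c : ℕ => decide (x ≤ (c : ℝ) / n)).length ↔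
      ∃ h : i < l.length, x ≤ (l[i] : ℝ) / n := by
  induction l generalizing i with
  | nil => simp
  | cons c l ih =>
    rw [List.pairwise_cons] at hl
    by_cases hc : x ≤ (c : ℝ) / n
    · rw [List.filter_cons_of_pos (by simpa using hc)]
      rcases i with _ | i
      · simp [hc]
      · rw [List.length_cons, Nat.add_le_add_iff_right, ih hl.2 i]
        simp
    · rw [List.filter_cons_of_neg (by simpa using hc)]
      have h0 : l.filter (fun c : ℕ => decide (x ≤ (c : ℝ) / n)) = [] := by
        rw [List.filter_eq_nil_iff]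
        intro b hb
        have h1 : b ≤ c := hl.1 b hb
        have h2 : (b : ℝ) / n ≤ (c : ℝ) / n := by
          have : (b : ℝ) ≤ c := by exact_mod_cast h1
          exact div_le_div_of_nonneg_right this hn.le
        simp only [decide_eq_true_eq, not_le]
        exact lt_of_le_of_lt h2 (not_le.1 hc)
      rw [h0]
      constructor
      · intro h; simp at h
      · rintro ⟨h, h1⟩
        exfalso
        rcases i with _ | i
        · exact hc (by simpa using h1)
        · have h2 : l[i]'(by simpa using h) ∈ l := List.getElem_mem _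
          have h3 : l[i]'(by simpa using h) ≤ c := hl.1 _ h2
          have h4 : ((l[i]'(by simpa using h) : ℕ) : ℝ) / n ≤ (c : ℝ) / n := by
            have : ((l[i]'(by simpa using h) : ℕ) : ℝ) ≤ c := by exact_mod_cast h3
            exact div_le_div_of_nonneg_right this hn.le
          have h5 : x ≤ ((l[i]'(by simpa using h) : ℕ) : ℝ) / n := by simpa using h1
          exact hc (h5.trans h4)

/-- real sum -/
def rs (l : List ℕ) : ℝ := (l.map fun c : ℕ => (c : ℝ)).sum

theorem rs_nonneg (l : List ℕ) : 0 ≤ rs l := by
  unfold rs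
  refine List.sum_nonneg fun x hx => ?_
  obtain ⟨c, -, rfl⟩ := List.mem_map.1 hx
  exact Nat.cast_nonneg _

theorem rs_cons (c : ℕ) (l : List ℕ) : rs (c :: l) = c + rs l := by
  simp [rs]

theorem sum_range_getD (l : List ℕ) (k : ℕ) :
    ∑ i ∈ range k, ((l.getD i 0 : ℕ) : ℝ) = rs (l.take k) := by
  induction l generalizing k with
  | nil => simp [rs]
  | cons c l ih =>
    rcases k with _ | k
    · simp [rs]
    · rw [Finset.sum_range_succ', List.take_succ_cons, rs_cons, ← ih k, add_comm]
      simp

/-- the large entries come first -/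
theorem filter_le_take {l : List ℕ} (hl : l.Pairwise (· ≥ ·)) (p : ℕ → Bool)
    (hp : ∀ a b, a ≤ b → p a = true → p b = true) (k : ℕ) (hk : (l.filter p).length ≤ k) :
    rs (l.filter p) ≤ rs (l.take k) := by
  induction l generalizing k with
  | nil => simp
  | cons c l ih =>
    rw [List.pairwise_cons] at hl
    by_cases hc : p c = true
    · rw [List.filter_cons_of_pos hc] at hk ⊢
      rcases k with _ | k
      · simp at hk
      · rw [List.take_succ_cons, rs_cons, rs_cons]
        have := ih hl.2 k (by simpa using hk)
        linarith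
    · rw [List.filter_cons_of_neg hc]
      have h0 : l.filter p = [] := by
        rw [List.filter_eq_nil_iff]
        intro b hb h1
        exact hc (hp b c (hl.1 b hb) h1)
      rw [h0]
      exact rs_nonneg _

theorem take_le (l : List ℕ) (p : ℕ → Bool) (B : ℝ) (hB : 0 ≤ B)
    (hp : ∀ a : ℕ, ¬ p a = true → (a : ℝ) ≤ B) (k : ℕ) :
    rs (l.take k) ≤ rs (l.filter p) + k * B := by
  induction l generalizing k with
  | nil => simp [rs]; positivity
  | cons c l ih =>
    rcases k with _ | k
    · simp only [List.take_zero, Nat.cast_zero, zero_mul, add_zero]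
      have : rs [] = 0 := by simp [rs]
      rw [this]
      exact rs_nonneg _
    · have h1 := ih k
      rw [List.take_succ_cons, rs_cons]
      push_cast
      by_cases hc : p c = true
      · rw [List.filter_cons_of_pos hc, rs_cons]
        linarith
      · rw [List.filter_cons_of_neg hc]
        have := hp c hc
        linarith

theorem length_le (l : List ℕ) (p : ℕ → Bool) (n K : ℝ)
    (hp : ∀ a : ℕ, p a = true → n ≤ K * a) (hK : 0 ≤ K) :
    ((l.filter p).length : ℝ) * n ≤ K * rs l := by
  induction l with
  | nil => simp [rs]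
  | cons c l ih =>
    rw [rs_cons]
    by_cases hc : p c = true
    · rw [List.filter_cons_of_pos hc, List.length_cons]
      push_cast
      have := hp c hc
      linarith
    · rw [List.filter_cons_of_neg hc]
      have : 0 ≤ K * (c : ℝ) := by positivity
      linarith

section main

variable {V : Type} [Fintype V] [DecidableEq V] [Nonempty V]

theorem pOrd_eq (g : Perm V) (i : ℕ) :
    pOrd g i = (((g.partition.parts.sort (· ≥ ·)).getD i 0 : ℕ) : ℝ) / Fintype.card V := by
  have hn : (0 : ℝ) < Fintype.card V := by exact_mod_cast Fintype.card_pos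
  set l := g.partition.parts.sort (· ≥ ·) with hl
  have hsort : l.Pairwise (· ≥ ·) := Multiset.pairwise_sort _ _
  have hcoe : (l : Multiset ℕ) = g.partition.parts := Multiset.sort_eq _ _
  have hset : ∀ x : ℝ, i + 1 ≤ Multiset.card
      (g.partition.parts.filter fun c : ℕ => x ≤ (c : ℝ) / Fintype.card V) ↔
      ∃ h : i < l.length, x ≤ (l[i] : ℝ) / Fintype.card V := by
    intro x
    rw [← count_iff hsort _ hn, ← hcoe, Multiset.filter_coe, Multiset.coe_card]
  unfold pOrd
  by_cases hi : i < l.length
  · have h1 : {x : ℝ | i + 1 ≤ Multiset.card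
        (g.partition.parts.filter fun c : ℕ => x ≤ (c : ℝ) / Fintype.card V)} =
        Set.Iic ((l[i] : ℝ) / Fintype.card V) := by
      ext x
      rw [Set.mem_setOf_eq, hset, Set.mem_Iic]
      exact ⟨fun h => h.2, fun h => ⟨hi, h⟩⟩
    rw [h1, csSup_Iic, List.getD_eq_getElem _ _ hi]
  · have h1 : {x : ℝ | i + 1 ≤ Multiset.card
        (g.partition.parts.filter fun c : ℕ => x ≤ (c : ℝ) / Fintype.card V)} = ∅ := by
      ext x
      rw [Set.mem_setOf_eq, hset]
      simp [hi]
    rw [h1, Real.sSup_empty, List.getD_eq_default _ _ (by omega)]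
    simp

end main

theorem main : Pool.Agent.W805.PD.S_topmass := by
  classical
  intro V _ _ _ g K K' hK
  have hn : (0 : ℝ) < Fintype.card V := by exact_mod_cast Fintype.card_pos
  have hK' : (0 : ℝ) < K := by exact_mod_cast hK
  set n : ℝ := (Fintype.card V : ℝ) with hndef
  set l := g.partition.parts.sort (· ≥ ·) with hl
  have hsort : l.Pairwise (· ≥ ·) := Multiset.pairwise_sort _ _
  have hcoe : (l : Multiset ℕ) = g.partition.parts := Multiset.sort_eq _ _
  set p : ℕ → Bool := fun c => decide (n ≤ K * (c : ℝ)) with hp
  have hsum : ∑ i ∈ range K', pOrd g i = rs (l.take K') / n := by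
    rw [← sum_range_getD, Finset.sum_div]
    exact Finset.sum_congr rfl fun i _ => pOrd_eq g i
  have hrs : ∀ l' : List ℕ, rs (l'.filter p) =
      (l'.map fun c : ℕ => (c : ℝ) * (if n ≤ K * (c : ℝ) then (1 : ℝ) else 0)).sum := by
    intro l'
    induction l' with
    | nil => simp [rs]
    | cons c l' ih =>
      rw [List.map_cons, List.sum_cons, ← ih]
      by_cases hc : n ≤ K * (c : ℝ)
      · rw [List.filter_cons_of_pos (by simpa [hp] using hc), rs_cons, if_pos hc, mul_one]
      · rw [List.filter_cons_of_neg (by simpa [hp] using hc), if_neg hc, mul_zero, zero_add]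
  have hu : (uavg fun v : V => if 1 ≤ K * pc g v then (1 : ℝ) else 0) = rs (l.filter p) / n := by
    unfold uavg
    rw [hrs]
    congr 1
    have h1 := sum_len g (fun x => if n ≤ K * x then (1 : ℝ) else 0)
    rw [← hcoe, Multiset.map_coe, Multiset.sum_coe] at h1
    rw [← h1]
    refine Finset.sum_congr rfl fun v _ => ?_
    have h2 : 1 ≤ K * pc g v ↔ n ≤ K * len g v := by
      unfold pc
      rw [← mul_div_assoc, le_div_iff₀ hn, one_mul]
    simp only [h2]
  have hone : rs l = n := by
    have h1 := sum_len g (fun _ => 1)
    rw [← hcoe, Multiset.map_coe, Multiset.sum_coe] at h1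
    simp only [mul_one, Finset.sum_const, nsmul_eq_mul, Finset.card_univ] at h1
    exact h1.symm
  rw [hsum, hu]
  constructor
  · intro hKK
    refine div_le_div_of_nonneg_right ?_ hn.le
    refine filter_le_take hsort p ?_ K' ?_
    · intro a b hab ha
      simp only [hp, decide_eq_true_eq] at ha ⊢
      have : (a : ℝ) ≤ b := by exact_mod_cast hab
      nlinarith
    · have h1 := length_le l p n K (fun a ha => by simpa [hp] using ha) hK'.le
      rw [hone] at h1
      have h2 : ((l.filter p).length : ℝ) ≤ K := le_of_mul_le_mul_right h1 hn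
      have h3 : (l.filter p).length ≤ K := by exact_mod_cast h2
      omega
  · have h1 := take_le l p (n / K) (by positivity) (fun a ha => by
      simp only [hp, decide_eq_true_eq, not_le] at ha
      rw [le_div_iff₀ hK']
      linarith) K'
    calc rs (l.take K') / n ≤ (rs (l.filter p) + K' * (n / K)) / n :=
          div_le_div_of_nonneg_right h1 hn.le
      _ = _ := by field_simp

end Pool.Agent.W928.PD.PO
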